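import Pool.Agent.Helper36.TV.A1
import Pool.Agent.Helper36.TV.A2
import Pool.Agent.Helper36.TV.A3
import Pool.Agent.Helper90.TS.ColAll

/-!
# The columns with at most one far cell
-/

set_option autoImplicit false

namespace Pool.Agent.Helper36.TV

open Pool.Agent.Helper83.TS Pool.Agent.Helper36.TS Pool.Agent.Helper84.TS
open Pool.Agent.Helper78.TS (ColI)

section

variable {x y z : ℝ}

theorem br_sym (x0 : 0 ≤ x) (y0 : 0 ≤ y) (z0 : 0 ≤ z) (x1 : x ≤ 3 / 5) (y1 : y ≤ 3 / 5)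
    (z1 : z ≤ 3 / 5) : Br (nu x - ka x y - ka x z) x (nu y) y (nu z - ka y z) z (ka x y / 2)
      (ka x z / 2) (W1 x y z) :=
  ⟨c1_rI x0 y0 z0 x1 y1 z1, c1_rII x0 y0 z0 x1 y1 z1, c1_rIII x0 y0 z0 x1 y1 z1,
    c1_n x0 y0 z0 x1 y1 z1, c1_yb x0 y0 z0 x1 y1 z1, c1_ya x0 y0 z0 x1 y1 z1,
    Or.inr ⟨c1_kbI x0 y0 z0 x1 y1 z1, c1_kbII x0 y0 z0 x1 y1 z1, c1_kbV x0 y0 z0 x1 y1 z1,
      c1_kbZ x0 y0 z0 x1 y1 z1⟩,
    Or.inr ⟨c1_kaI x0 y0 z0 x1 y1 z1, c1_kaII x0 y0 z0 x1 y1 z1, c1_kaV x0 y0 z0 x1 y1 z1,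
      c1_kaZ x0 y0 z0 x1 y1 z1⟩,
    c1_bb x0 y0 z0 x1 y1 z1⟩

theorem W1_swap (x y z : ℝ) : W1 x z y = W1 x y z := by
  unfold W1
  ring

theorem W1_swap' (x y z : ℝ) : W1 y x z = W1 x y z := by
  unfold W1
  ring

theorem W2_swap (x y z : ℝ) : W2 x z y = W2 x y z := by
  unfold W2
  ring

theorem W2_swap' (x y z : ℝ) : W2 y x z = W2 x y z := by
  unfold W2
  ring

theorem W2_le (x0 : 0 ≤ x) (y0 : 0 ≤ y) (z0 : 0 ≤ z) (x1 : x ≤ 3 / 5) (y1 : y ≤ 3 / 5)
    (z1 : z ≤ 3 / 5) : W2 x y z ≤ W1 x y z := by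
  unfold W1 W2
  nlinarith [mul_nonneg x0 y0, mul_nonneg x0 z0, mul_nonneg y0 z0, sq_nonneg (x - 3 / 10),
    sq_nonneg (y - 3 / 10), sq_nonneg (z - 3 / 10), sq_nonneg (x + y + z - 3 / 10)]

theorem lo_sym (x0 : 0 ≤ x) (y0 : 0 ≤ y) (z0 : 0 ≤ z) (x1 : x ≤ 3 / 5) (y1 : y ≤ 3 / 5)
    (z1 : z ≤ 3 / 5) : Lo (nu x - ka x y - ka x z) x (nu y) y (nu z) z (ka y z) (ka y z / 2)
      (W1 x y z) := by
  refine ⟨c1_a1 x0 y0 z0 x1 y1 z1, c1_a2 x0 y0 z0 x1 y1 z1, c1_b x0 y0 z0 x1 y1 z1,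
    c1_c x0 y0 z0 x1 y1 z1, ?_⟩
  have := mm z0 z1 y0 y1
  rw [ka_comm z y] at this
  linarith

/-- the polynomial inequalities of a column -/
theorem col_sym (x0 : 0 ≤ x) (y0 : 0 ≤ y) (z0 : 0 ≤ z) (x1 : x ≤ 3 / 5) (y1 : y ≤ 3 / 5)
    (z1 : z ≤ 3 / 5) : Col (nu x - ka x y - ka x z) x (nu y) y (nu z) z (ka y z) (ka x y / 2)
      (ka x z / 2) (ka y z / 2) (W1 x y z) := by
  have e : nu x - ka x z - ka x y = nu x - ka x y - ka x z := by ring
  have b1 := Pool.Agent.Helper74.TS.Br_swap (br_sym x0 z0 y0 x1 z1 y1)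
  rw [e, ka_comm z y, W1_swap] at b1
  have l1 := lo_sym x0 z0 y0 x1 z1 y1
  rw [e, ka_comm z y, W1_swap] at l1
  exact ⟨br_sym x0 y0 z0 x1 y1 z1, b1, lo_sym x0 y0 z0 x1 y1 z1, l1, kap_nonneg y0 y1 z0 z1,
    by linarith [kap_nonneg x0 x1 y0 y1], by linarith [kap_nonneg x0 x1 z0 z1],
    by linarith [kap_nonneg y0 y1 z0 z1]⟩

end

/-! ### The columns of a family -/

section

variable {A : Fin 4 → Fin 4 → Option (Fin 4 → ℝ)} {P : Fin 4 → Fin 4 → ℝ}

/-- the symmetric column inequality -/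
def SC (A : Fin 4 → Fin 4 → Option (Fin 4 → ℝ)) (P : Fin 4 → Fin 4 → ℝ) (m a b c : Fin 4)
    (W : ℝ) : Prop :=
  ColI A P m a b c (nu (P a a - 1)) (nu (P b b - 1)) (nu (P c c - 1))
    (ka (P a a - 1) (P b b - 1)) (ka (P a a - 1) (P c c - 1)) (ka (P b b - 1) (P c c - 1))
    (ka (P a a - 1) (P b b - 1) / 2) (ka (P a a - 1) (P c c - 1) / 2)
    (ka (P b b - 1) (P c c - 1) / 2) W

theorem SC.swap12 {m a b c : Fin 4} {W : ℝ} (h : SC A P m a b c W) : SC A P m b a c W := by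
  unfold SC at *
  rw [ka_comm (P b b - 1) (P a a - 1)]
  exact Pool.Agent.Helper78.TS.ColI.swap12 h

theorem SC.swap23 {m a b c : Fin 4} {W : ℝ} (h : SC A P m a b c W) : SC A P m a c b W := by
  unfold SC at *
  rw [ka_comm (P c c - 1) (P b b - 1)]
  exact Pool.Agent.Helper78.TS.ColI.swap23 h

theorem SC.mono {m a b c : Fin 4} {W W' : ℝ} (h : SC A P m a b c W) (hW : W ≤ W') :
    SC A P m a b c W' := by
  unfold SC ColI at *
  linarith

theorem hts (hB : Base A P) (i : Fin 4) : 0 ≤ P i i - 1 ∧ P i i - 1 ≤ 3 / 5 := by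
  have h1 := (hB.of.cell i i _ (hB.hP i)).one
  exact ⟨by linarith, (hB.hd i).le⟩

/-- one class has the lowest entry -/
theorem low_cases (P : Fin 4 → Fin 4 → ℝ) {m a b c : Fin 4} (hn : [m, a, b, c].Nodup) :
    Low P m a ∨ Low P m b ∨ Low P m c := by
  have h3 := nodup_ne hn
  have key : ∀ e f g : Fin 4, e ≠ m → (∀ x, x ≠ m → x = e ∨ x = f ∨ x = g) →
      -P e m ≤ -P f m → -P e m ≤ -P g m → Low P m e := by
    intro e f g he hx h1 h2
    refine ⟨he, fun x hxm => ?_⟩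
    rcases hx x hxm with rfl | rfl | rfl
    · exact le_refl _
    · exact h1
    · exact h2
  have hx : ∀ x, x ≠ m → x = a ∨ x = b ∨ x = c := by
    intro x hxm
    rcases mem4 hn x with h | h | h | h
    · exact absurd h hxm
    · exact Or.inl h
    · exact Or.inr (Or.inl h)
    · exact Or.inr (Or.inr h)
  rcases le_total (-P a m) (-P b m) with h1 | h1
  · rcases le_total (-P a m) (-P c m) with h2 | h2
    · exact Or.inl (key a b c h3.1 hx h1 h2)
    · refine Or.inr (Or.inr (key c a b h3.2.2 (fun x h => ?_) h2 (h2.trans h1)))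
      rcases hx x h with h | h | h
      · exact Or.inr (Or.inl h)
      · exact Or.inr (Or.inr h)
      · exact Or.inl h
  · rcases le_total (-P b m) (-P c m) with h2 | h2
    · refine Or.inr (Or.inl (key b a c h3.2.1 (fun x h => ?_) h1 h2))
      rcases hx x h with h | h | h
      · exact Or.inr (Or.inl h)
      · exact Or.inl h
      · exact Or.inr (Or.inr h)
    · refine Or.inr (Or.inr (key c a b h3.2.2 (fun x h => ?_) (h2.trans h1) h2))
      rcases hx x h with h | h | h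
      · exact Or.inr (Or.inl h)
      · exact Or.inr (Or.inr h)
      · exact Or.inl h

/-- a column with at most one far cell, `e` its lowest class -/
theorem sc_low (hB : Base A P) {m e a b : Fin 4} (hn : [m, e, a, b].Nodup) (hl : Low P m e)
    (hO : ∀ x y F G, x ≠ m → y ≠ m → A x m = some F → A y m = some G → x = y) :
    SC A P m e a b (W1 (P e e - 1) (P a a - 1) (P b b - 1)) := by
  obtain ⟨e0, e1⟩ := hts hB e
  obtain ⟨a0, a1⟩ := hts hB a
  obtain ⟨b0, b1⟩ := hts hB b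
  exact Pool.Agent.Helper90.TS.column hB hO hn hl (col_sym e0 a0 b0 e1 a1 b1)

/-- **A column with at most one far cell.** -/
theorem sc_one (hB : Base A P) {m a b c : Fin 4} (hn : [m, a, b, c].Nodup)
    (hO : ∀ x y F G, x ≠ m → y ≠ m → A x m = some F → A y m = some G → x = y) :
    SC A P m a b c (W1 (P a a - 1) (P b b - 1) (P c c - 1)) := by
  have n1 : [m, b, a, c].Nodup := by clear * - hn; revert hn; revert m a b c; decide
  have n2 : [m, c, a, b].Nodup := by clear * - hn; revert hn; revert m a b c; decide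
  rcases low_cases P hn with h | h | h
  · exact sc_low hB hn h hO
  · have := sc_low hB n1 h hO
    rw [W1_swap'] at this
    exact this.swap12
  · have := sc_low hB n2 h hO
    rw [← W1_swap', W1_swap] at this
    exact this.swap12.swap23

end

end Pool.Agent.Helper36.TV
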