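import Pool.Agent.Helper65.TS.Vol
import Pool.Agent.Helper83.TS.Defs
import Pool.Agent.Helper83.Cert.Check
import Pool.Agent.Helper83.Cert.RE

/-!
# The multipliers for a column with two far cells

`nu` for the rows, `ka` for the pairs, `W1` for the columns with at most one far cell, `W2` for the
column with two or three far cells; everything is symmetric in the classes.
-/

set_option autoImplicit false
set_option maxRecDepth 100000
set_option linter.all false

namespace Pool.Agent.Helper36.TV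

open Pool.Agent.Helper83.Cert (finE)

open Pool.Agent.Helper83.Cert Pool.Agent.Helper36.TS

/-- the rows -/
noncomputable def nu (x : ℝ) : ℝ := 1057 / 1250 - 4081 / 10000 * x

/-- the pairs -/
noncomputable def ka (x y : ℝ) : ℝ := 4187 / 10000 - 191 / 500 * (x + y) - 27 / 250 * (x * y) + 123 / 1000 * (x ^ 2 + y ^ 2)

/-- the columns with at most one far cell -/
noncomputable def W1 (x y z : ℝ) : ℝ := 4629 / 10000 + 1101 / 5000 * (x + y + z) + 289 / 5000 * (x ^ 2 + y ^ 2 + z ^ 2)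
    + 1647 / 5000 * (x * y + x * z + y * z)

/-- the column with two or three far cells -/
noncomputable def W2 (x y z : ℝ) : ℝ := 937 / 2500 + 797 / 2500 * (x + y + z) - 1083 / 10000 * (x ^ 2 + y ^ 2 + z ^ 2)
    + 509 / 5000 * (x * y + x * z + y * z)

theorem ka_comm (x y : ℝ) : ka x y = ka y x := by
  unfold ka
  ring

/-- the pair multiplier is nonnegative -/
theorem kap_nonneg {x y : ℝ} (x0 : 0 ≤ x) (x1 : x ≤ 3 / 5) (y0 : 0 ≤ y) (y1 : y ≤ 3 / 5) :
    0 ≤ ka x y := by
  have nx : 0 ≤ x := by linarith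
  have ny : 0 ≤ y := by linarith
  exact finE (yv_nonneg nx ny (le_refl 0) (le_refl 0) (le_refl 0) (le_refl 0) (le_refl 0) (le_refl 0) (le_refl 0)) .z (.A (.S (.S (.D (.n 4185) 9998) (.M (.D (.n 189) 498) (.A .v0 .v1))) (.M (.D (.n 25) 248) (.M .v0 .v1))) (.M (.D (.n 121) 998) (.A (.P .v0) (.P .v1))))
    [.v0, (.S (.D (.n 1) 3) .v0), .v1, (.S (.D (.n 1) 3) .v1)]
    ⟨x0, Pool.Agent.Helper83.Cert.sn x1, y0, Pool.Agent.Helper83.Cert.sn y1, trivial⟩
    12499 9 0x30c200000000000000000000001908208000000000000000000000004008200000000000000000009624700008000000000000000001c88ccc41040000000000000000000000010041000000000000000000025891c104400000000000000000000001900110000000000000000000a4cbe40004000000000000000000596b04 0 0x0 (by decide +kernel)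

theorem mm {y z : ℝ} (y0 : 0 ≤ y) (y1 : y ≤ 3 / 5) (z0 : 0 ≤ z) (z1 : z ≤ 3 / 5) :
    1 / 8 + z * (1 - z) ≤ nu z - ka y z := by
  have ny : 0 ≤ y := by linarith
  have nz : 0 ≤ z := by linarith
  exact finE (yv_nonneg ny nz (le_refl 0) (le_refl 0) (le_refl 0) (le_refl 0) (le_refl 0) (le_refl 0) (le_refl 0)) (.A (.D .o 6) (.M .v1 (.S .o .v1))) (.S (.S (.D (.n 1055) 1248) (.M (.D (.n 4079) 9998) .v1)) (.A (.S (.S (.D (.n 4185) 9998) (.M (.D (.n 189) 498) (.A .v0 .v1))) (.M (.D (.n 25) 248) (.M .v0 .v1))) (.M (.D (.n 121) 998) (.A (.P .v0) (.P .v1)))))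
    [.v0, (.S (.D (.n 1) 3) .v0), .v1, (.S (.D (.n 1) 3) .v1)]
    ⟨y0, Pool.Agent.Helper83.Cert.sn y1, z0, Pool.Agent.Helper83.Cert.sn z1, trivial⟩
    1999999 8 0x104100000000000000000000002802104000000000000000000dbb980004100000000000000000862cfc0030c100000000000000006b494560002040000000000000000754dd5804041000000000000000000000fa008104000000000000000000003e8000010000000000000001960613e0 1 0x20202020202020392013c000000000000000000003a5d5 (by decide +kernel)

theorem ms {y z : ℝ} (y0 : 0 ≤ y) (y1 : y ≤ 3 / 5) (z0 : 0 ≤ z) (z1 : z ≤ 3 / 5) :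
    (1 - z) * (5 * y / 12) ≤ nu z - ka y z := by
  have ny : 0 ≤ y := by linarith
  have nz : 0 ≤ z := by linarith
  exact finE (yv_nonneg ny nz (le_refl 0) (le_refl 0) (le_refl 0) (le_refl 0) (le_refl 0) (le_refl 0) (le_refl 0)) (.M (.S .o .v1) (.D (.M (.n 3) .v0) 10)) (.S (.S (.D (.n 1055) 1248) (.M (.D (.n 4079) 9998) .v1)) (.A (.S (.S (.D (.n 4185) 9998) (.M (.D (.n 189) 498) (.A .v0 .v1))) (.M (.D (.n 25) 248) (.M .v0 .v1))) (.M (.D (.n 121) 998) (.A (.P .v0) (.P .v1)))))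
    [.v0, (.S (.D (.n 1) 3) .v0), .v1, (.S (.D (.n 1) 3) .v1)]
    ⟨y0, Pool.Agent.Helper83.Cert.sn y1, z0, Pool.Agent.Helper83.Cert.sn z1, trivial⟩
    24999 9 0x4300000000000000000f5f70a80c40c000000000000000000000258010300000000000000000119879a0000c000000000000000001882254208200000000000000000000000600108000000000000000004662138410200000000000000000000000608408000000000000000000000018010200000000000000000052c110 0 0x0 (by decide +kernel)

theorem ce_nonneg {x y z : ℝ} (x0 : 0 ≤ x) (x1 : x ≤ 3 / 5) (y0 : 0 ≤ y) (y1 : y ≤ 3 / 5) (z0 : 0 ≤ z) (z1 : z ≤ 3 / 5) :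
    0 ≤ nu x - ka x y - ka x z := by
  have nx : 0 ≤ x := by linarith
  have ny : 0 ≤ y := by linarith
  have nz : 0 ≤ z := by linarith
  exact finE (yv_nonneg nx ny nz (le_refl 0) (le_refl 0) (le_refl 0) (le_refl 0) (le_refl 0) (le_refl 0)) .z (.S (.S (.S (.D (.n 1055) 1248) (.M (.D (.n 4079) 9998) .v0)) (.A (.S (.S (.D (.n 4185) 9998) (.M (.D (.n 189) 498) (.A .v0 .v1))) (.M (.D (.n 25) 248) (.M .v0 .v1))) (.M (.D (.n 121) 998) (.A (.P .v0) (.P .v1))))) (.A (.S (.S (.D (.n 4185) 9998) (.M (.D (.n 189) 498) (.A .v0 .v2))) (.M (.D (.n 25) 248) (.M .v0 .v2))) (.M (.D (.n 121) 998) (.A (.P .v0) (.P .v2)))))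
    [.v0, (.S (.D (.n 1) 3) .v0), .v1, (.S (.D (.n 1) 3) .v1), .v2, (.S (.D (.n 1) 3) .v2)]
    ⟨x0, Pool.Agent.Helper83.Cert.sn x1, y0, Pool.Agent.Helper83.Cert.sn y1, z0, Pool.Agent.Helper83.Cert.sn z1, trivial⟩
    4999 19 0x518500000000000000000000000a006140000000000000000004b13000005000000000000000000eb22ec0c40c000000000000000000000028010300000000000000000012c4c61460c000000000000000000000028318300000000000000000000000a0060c0000000000000000000000400003000000000000000000eb22ab002040000000000000000009625f0614100000000000000000000000a005040000000000000000014995c060c100000000000000000000000a1030400000000000000000000002800c100000000000000000052655218104000000000000000000000028404100000000000000000000000a0810400000000000000000000002800010000000000000000009eeb11 0 0x0 (by decide +kernel)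

theorem dom {y z w s : ℝ} (y0 : 0 ≤ y) (y1 : y ≤ 3 / 5) (z0 : 0 ≤ z) (z1 : z ≤ 3 / 5) (w0 : 0 ≤ w) (w1 : w ≤ 13 / 20) (ws : w ≤ s) (s1 : s ≤ 1 - z + 5 * z / 12) :
    (13 / 20 + w) ^ 2 / 4 - w ^ 2 / 3 + (1 - z) * (5 * z / 6 - s) / 2 + (5 * z / 12 - s) ^ 2 / 3 ≤
      nu z - ka y z := by
  have ny : 0 ≤ y := by linarith
  have nz : 0 ≤ z := by linarith
  have nw : 0 ≤ w := by linarith
  have ns : 0 ≤ s := by linarith
  exact finE (yv_nonneg ny nz nw ns (le_refl 0) (le_refl 0) (le_refl 0) (le_refl 0) (le_refl 0)) (.A (.A (.S (.D (.P (.A (.D (.n 11) 18) .v2)) 2) (.D (.P .v2) 1)) (.D (.M (.S .o .v1) (.S (.D (.M (.n 3) .v1) 4) .v3)) 0)) (.D (.P (.S (.D (.M (.n 3) .v1) 10) .v3)) 1)) (.S (.S (.D (.n 1055) 1248) (.M (.D (.n 4079) 9998) .v1)) (.A (.S (.S (.D (.n 4185) 9998) (.M (.D (.n 189) 498) (.A .v0 .v1))) (.M (.D (.n 25) 248) (.M .v0 .v1))) (.M (.D (.n 121) 998) (.A (.P .v0) (.P .v1)))))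
    [.v0, (.S (.D (.n 1) 3) .v0), .v1, (.S (.D (.n 1) 3) .v1), .v2, (.S (.D (.n 11) 18) .v2), (.S .v3 .v2), (.S (.A (.S .o .v1) (.D (.M (.n 3) .v1) 10)) .v3)]
    ⟨y0, Pool.Agent.Helper83.Cert.sn y1, z0, Pool.Agent.Helper83.Cert.sn z1, w0, Pool.Agent.Helper83.Cert.sn w1, Pool.Agent.Helper83.Cert.sn ws, Pool.Agent.Helper83.Cert.sn s1, trivial⟩
    1999999 34 0x821c0000000000000000000fd2000007000000000000006af32b81401c71800000000000000054ba837c06146000000000000000010f20534183180000000000000000695ff91030c6000000000000000047c18670206200000000000000000096a31c40148000000000000000df85e52d00c32000000000000000020328fb4081c800000000000000005e2497f41c7200000000000000011a6e77a4001c8000000000000000df852c9b0000200000000000000009c7c574408204000000000000000003a6e78c1c71000000000000000107ee93c0051c4000000000000000211d2218014410000000000000000538bd7d003104000000000000000047d86e8008410000000000000000172c8ed0001040000000000000002cf266d40000100000000000000038db367900820100000000000000000000a9ec0c30400000000000000b50b140d000081000000000000000c5f4bee00207040000000000000000002ad8c041c10000000000000000000dd7c01c604000000000000000000204cc0518100000000000000000009b9100c60400000000000000000023988080410000000000000000000afc801410400000000000000000107ac0030410000000000000000002ad8c0081040000000000000000001a5e00000100000000000000ab49eb9700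 0 0x0 (by decide +kernel)

theorem total {a b c d : ℝ} (a0 : 0 ≤ a) (a1 : a ≤ 3 / 5) (b0 : 0 ≤ b) (b1 : b ≤ 3 / 5) (c0 : 0 ≤ c) (c1 : c ≤ 3 / 5) (d0 : 0 ≤ d) (d1 : d ≤ 3 / 5) :
    rowc (nu a) a + rowc (nu b) b + rowc (nu c) c + rowc (nu d) d + ka a b * (a + b)
      + ka a c * (a + c) + ka a d * (a + d) + ka b c * (b + c) + ka b d * (b + d) + ka c d * (c + d)
      + (W1 b c d + W1 a c d + W1 a b d + W2 a b c) ≤ 613 / 200 := by
  have na : 0 ≤ a := by linarith
  have nb : 0 ≤ b := by linarith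
  have nc : 0 ≤ c := by linarith
  have nd : 0 ≤ d := by linarith
  exact finE (yv_nonneg na nb nc nd (le_refl 0) (le_refl 0) (le_refl 0) (le_refl 0) (le_refl 0)) (.A (.A (.A (.A (.A (.A (.A (.A (.A (.A (.S (.S (.A (.S (.D (.n 5) 4) (.M (.D (.n 1) 0) .v0)) (.D (.P .v0) 0)) (.D (.Q .v0) 4)) (.M (.S (.D (.n 1055) 1248) (.M (.D (.n 4079) 9998) .v0)) (.A .o .v0))) (.S (.S (.A (.S (.D (.n 5) 4) (.M (.D (.n 1) 0) .v1)) (.D (.P .v1) 0)) (.D (.Q .v1) 4)) (.M (.S (.D (.n 1055) 1248) (.M (.D (.n 4079) 9998) .v1)) (.A .o .v1)))) (.S (.S (.A (.S (.D (.n 5) 4) (.M (.D (.n 1) 0) .v2)) (.D (.P .v2) 0)) (.D (.Q .v2) 4)) (.M (.S (.D (.n 1055) 1248) (.M (.D (.n 4079) 9998) .v2)) (.A .o .v2)))) (.S (.S (.A (.S (.D (.n 5) 4) (.M (.D (.n 1) 0) .v3)) (.D (.P .v3) 0)) (.D (.Q .v3) 4)) (.M (.S (.D (.n 1055) 1248) (.M (.D (.n 4079) 9998) .v3)) (.A .o .v3)))) (.M (.A (.S (.S (.D (.n 4185) 9998) (.M (.D (.n 189) 498) (.A .v0 .v1))) (.M (.D (.n 25) 248) (.M .v0 .v1))) (.M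 (.D (.n 121) 998) (.A (.P .v0) (.P .v1)))) (.A .v0 .v1))) (.M (.A (.S (.S (.D (.n 4185) 9998) (.M (.D (.n 189) 498) (.A .v0 .v2))) (.M (.D (.n 25) 248) (.M .v0 .v2))) (.M (.D (.n 121) 998) (.A (.P .v0) (.P .v2)))) (.A .v0 .v2))) (.M (.A (.S (.S (.D (.n 4185) 9998) (.M (.D (.n 189) 498) (.A .v0 .v3))) (.M (.D (.n 25) 248) (.M .v0 .v3))) (.M (.D (.n 121) 998) (.A (.P .v0) (.P .v3)))) (.A .v0 .v3))) (.M (.A (.S (.S (.D (.n 4185) 9998) (.M (.D (.n 189) 498) (.A .v1 .v2))) (.M (.D (.n 25) 248) (.M .v1 .v2))) (.M (.D (.n 121) 998) (.A (.P .v1) (.P .v2)))) (.A .v1 .v2))) (.M (.A (.S (.S (.D (.n 4185) 9998) (.M (.D (.n 189) 498) (.A .v1 .v3))) (.M (.D (.n 25) 248) (.M .v1 .v3))) (.M (.D (.n 121) 998) (.A (.P .v1) (.P .v3)))) (.A .v1 .v3))) (.M (.A (.S (.S (.D (.n 4185) 9998) (.M (.D (.n 189) 498) (.A .v2 .v3))) (.M (.D (.n 25) 248) (.M .v2 .v3))) (.M (.D (.n 121) 998) (.A (.P .v2) (.P .v3)))) (.A .v2 .v3))) (.A (.A (.A (.A (.A (.A (.D (.n 4627) 9998)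 (.M (.D (.n 1099) 4998) (.A (.A .v1 .v2) .v3))) (.M (.D (.n 287) 4998) (.A (.A (.P .v1) (.P .v2)) (.P .v3)))) (.M (.D (.n 1645) 4998) (.A (.A (.M .v1 .v2) (.M .v1 .v3)) (.M .v2 .v3)))) (.A (.A (.A (.D (.n 4627) 9998) (.M (.D (.n 1099) 4998) (.A (.A .v0 .v2) .v3))) (.M (.D (.n 287) 4998) (.A (.A (.P .v0) (.P .v2)) (.P .v3)))) (.M (.D (.n 1645) 4998) (.A (.A (.M .v0 .v2) (.M .v0 .v3)) (.M .v2 .v3))))) (.A (.A (.A (.D (.n 4627) 9998) (.M (.D (.n 1099) 4998) (.A (.A .v0 .v1) .v3))) (.M (.D (.n 287) 4998) (.A (.A (.P .v0) (.P .v1)) (.P .v3)))) (.M (.D (.n 1645) 4998) (.A (.A (.M .v0 .v1) (.M .v0 .v3)) (.M .v1 .v3))))) (.A (.S (.A (.D (.n 935) 2498) (.M (.D (.n 795) 2498) (.A (.A .v0 .v1) .v2))) (.M (.D (.n 1081) 9998) (.A (.A (.P .v0) (.P .v1)) (.P .v2)))) (.M (.D (.n 507) 4998) (.A (.A (.M .v0 .v1) (.M .v0 .v2)) (.M .v1 .v2)))))) (.D (.n 611) 198)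
    [.v0, (.S (.D (.n 1) 3) .v0), .v1, (.S (.D (.n 1) 3) .v1), .v2, (.S (.D (.n 1) 3) .v2), .v3, (.S (.D (.n 1) 3) .v3)]
    ⟨a0, Pool.Agent.Helper83.Cert.sn a1, b0, Pool.Agent.Helper83.Cert.sn b1, c0, Pool.Agent.Helper83.Cert.sn c1, d0, Pool.Agent.Helper83.Cert.sn d1, trivial⟩
    49999999 29 0x5146000000000000000e2204ebd0081040000000000000033583f5e4051410000000000000016c4bc3830045040000000000000018492e82c00141000000000000002a870aac101450c000000000000007942d073000143000000000000002af9801ff01430c000000000000006b03e770c040c3000000000000000b48e7c8b00030c000000000000000bd781104050430000000000000093586a3d300c10c00000000000000f4a30a954010430000000000000035a0207b700010c0000000000000069a0877d002047000000000000000023de48100011c000000000000003384ec22c07207000000000000000e2204ebd00881c0000000000000000141ced0002070000000000000004fe7cc9202051c000000000000000430f48380614700000000000000010c3d20e00451c0000000000000063ff531fc00147000000000000000a5c468b402031c000000000000000195dd5e0050c700000000000000087d026f900c31c0000000000000021877f7d0010c7000000000000002ba1f60a500031c000000000000001e102fffc000070000000000000000ebf1eaa0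 5 0x202020202020202ca7dd060000000000000000004aadbc808080808080e480d564100000000000000000009d6946020202020286af17919040000000000000000002734628080808080abe4dd805e080000000000000000008bf4ea02020202028eb6e391882000000000000000000087f84 (by decide +kernel)

end Pool.Agent.Helper36.TV
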