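import Pool.Agent.Helper74.TS.Col0
import Pool.Agent.Helper65.TS.Col

/-!
# Volumes of the far cells of a column with two far cells
-/

set_option autoImplicit false

namespace Pool.Agent.Helper36.TV

open Pool.Agent.Helper36.TS Pool.Agent.Helper74.TS Pool.Agent.Helper83.TS

/-- a far cell: `X` its cap parameter for the class with the highest entry, `A` the one for the
third class -/
structure Fc (f w d X A : ℝ) : Prop where
  w0 : 0 < w
  w1 : w ≤ 13 / 20
  d0 : 0 ≤ d
  d1 : d < 1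
  X0 : 0 < X
  A0 : 0 < A
  sum : X + A = 1 + w - d
  vol : f = vl w X A

section

variable {f w d X A : ℝ}

theorem Fc.up (h : Fc f w d X A) {B : ℝ} (hB : A ≤ B) : f ≤ vl w X B := by
  rw [h.vol]
  exact vl_mono_r h.w0.le h.X0.le h.A0.le (by linarith [h.sum, h.d1]) hB

theorem Fc.up' (h : Fc f w d X A) {B : ℝ} (hB : X ≤ B) : f ≤ vl w B A := by
  rw [h.vol]
  exact vl_mono_l h.w0.le h.X0.le h.A0.le (by linarith [h.sum, h.d1]) hB

theorem Fc.v1 (h : Fc f w d X A) (hA : A ≤ 13 / 20) (hX : w ≤ X) :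
    f ≤ 13 / 20 * w * X - w ^ 3 / 3 := by
  have h1 := h.up hA
  rw [vl, max_eq_right (by linarith : w - X ≤ 0),
    max_eq_right (by linarith [h.w1] : w - 13 / 20 ≤ 0)] at h1
  linarith

theorem Fc.v2 (h : Fc f w d X A) (hA : A ≤ 13 / 20) (hX : X ≤ w) :
    f ≤ 13 / 20 * w * X - w ^ 2 * X + w * X ^ 2 - X ^ 3 / 3 := by
  have h1 := h.up hA
  rw [vl, max_eq_left (by linarith : 0 ≤ w - X),
    max_eq_right (by linarith [h.w1] : w - 13 / 20 ≤ 0)] at h1
  have e : (w - X) ^ 3 / 3 = w ^ 3 / 3 - w ^ 2 * X + w * X ^ 2 - X ^ 3 / 3 := by ring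
  linarith

theorem Fc.vB (h : Fc f w d X A) (hA : A ≤ 13 / 20) :
    f ≤ 13 / 20 * w * (7 / 20 + w) - w ^ 3 / 3 + 1 / 1000 := by
  have w0 := h.w0
  have w1 := h.w1
  have A0 := h.A0
  have h1 := h.up' (B := 1 + w - A) (by linarith [h.sum, h.d0])
  rw [vl, max_eq_right (by linarith : w - (1 + w - A) ≤ 0)] at h1
  rcases le_total A w with hw | hw
  · rw [max_eq_left (by linarith : 0 ≤ w - A)] at h1
    obtain ⟨q, hq⟩ : ∃ q, q = w - A := ⟨_, rfl⟩
    have hA' : A = w - q := by linarith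
    have q0 : 0 ≤ q := by linarith
    have qw : q ≤ w := by linarith
    rw [← hq, hA'] at h1
    have e : w * (1 + w - (w - q)) * (w - q) = w ^ 2 - w * q * (1 - w) - w * q ^ 2 := by ring
    have h2 : 0 ≤ w * q * (1 - w) := mul_nonneg (mul_nonneg w0.le q0) (by linarith)
    have h3 : q ^ 3 ≤ w * q ^ 2 := by
      have := mul_le_mul_of_nonneg_right qw (sq_nonneg q)
      nlinarith
    have h4 : 0 ≤ w * q ^ 2 := mul_nonneg w0.le (sq_nonneg q)
    have h5 : w ^ 2 ≤ 13 / 20 * w * (7 / 20 + w) := by nlinarith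
    nlinarith
  · rw [max_eq_right (by linarith : w - A ≤ 0)] at h1
    have e : w * (1 + w - A) * A = 13 / 20 * w * (7 / 20 + w) - w * ((13 / 20 - A) * (7 / 20 + w - A)) := by
      ring
    have h2 : -(1 / 1000) ≤ w * ((13 / 20 - A) * (7 / 20 + w - A)) := by
      rcases le_total A (7 / 20 + w) with h3 | h3
      · have := mul_nonneg w0.le (mul_nonneg (sub_nonneg.2 hA) (sub_nonneg.2 h3))
        linarith
      · have h4 : 0 ≤ ((13 / 20 - A) - (A - (7 / 20 + w))) ^ 2 := sq_nonneg _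
        have h5 : -((3 / 10 - w) ^ 2 / 4) ≤ (13 / 20 - A) * (7 / 20 + w - A) := by nlinarith
        have h6 := mul_le_mul_of_nonneg_left h5 w0.le
        have h7 : 0 ≤ (w - 1 / 10) ^ 2 * (2 / 5 - w) :=
          mul_nonneg (sq_nonneg _) (by linarith)
        nlinarith
    linarith

theorem Fc.vpsi (h : Fc f w d X A) : f ≤ w * (1 + w) ^ 2 / 4 - w ^ 3 / 3 := by
  rw [h.vol]
  exact vl_vm h.w0.le h.w1 h.X0.le h.A0.le (by linarith [h.sum, h.d1]) (by linarith [h.sum, h.d0])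

theorem Fc.vd (h : Fc f w d X A) : f ≤ w * (1 + w - d) ^ 2 / 4 - w ^ 3 / 4 :=
  Pool.Agent.Helper65.TS.vol_d h.w0.le h.d1.le h.X0.le h.A0.le h.sum (by
    rw [h.vol, vl]
    ring)

/-- the volume for `X + A ≤ S`, `2 w ≤ S` -/
theorem vl_S {w X A S : ℝ} (w0 : 0 ≤ w) (X0 : 0 ≤ X) (A0 : 0 ≤ A) (hs : w ≤ X + A)
    (hS : X + A ≤ S) (h2 : 2 * w ≤ S) : vl w X A ≤ w * S ^ 2 / 4 - w ^ 3 / 3 := by
  have h1 : vl w X A ≤ vl w (S - A) A := vl_mono_l w0 X0 A0 hs (by linarith)
  refine h1.trans ?_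
  have key : ∀ r : ℝ, 0 ≤ r → r ≤ w → w * (S - (w - r)) * (w - r) + r ^ 3 / 3 ≤ w * S ^ 2 / 4 := by
    intro r r0 rw
    have h3 : r ^ 2 ≤ (S / 2 - (w - r)) ^ 2 := pow_le_pow_left₀ r0 (by linarith) 2
    have h4 := mul_le_mul_of_nonneg_left h3 w0
    have h5 : r ^ 3 ≤ w * r ^ 2 := by
      have := mul_le_mul_of_nonneg_right rw (sq_nonneg r)
      nlinarith
    have h6 : 0 ≤ w * r ^ 2 := mul_nonneg w0 (sq_nonneg r)
    nlinarith
  rw [vl]
  rcases le_total A w with hA | hA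
  · rw [max_eq_left (by linarith : 0 ≤ w - A), max_eq_right (by linarith : w - (S - A) ≤ 0)]
    have := key (w - A) (by linarith) (by linarith)
    rw [show w - (w - A) = A by ring] at this
    linarith
  · rw [max_eq_right (by linarith : w - A ≤ 0)]
    rcases le_total (S - A) w with hB | hB
    · rw [max_eq_left (by linarith : 0 ≤ w - (S - A))]
      have := key (w - (S - A)) (by linarith) (by linarith)
      rw [show w - (w - (S - A)) = S - A by ring, show S - (S - A) = A by ring] at this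
      nlinarith
    · rw [max_eq_right (by linarith : w - (S - A) ≤ 0)]
      nlinarith [mul_nonneg w0 (sq_nonneg (S / 2 - A))]

theorem Fc.v35 (h : Fc f w d X A) (hd : 7 / 20 ≤ d) :
    f ≤ w * (13 / 20 + w) ^ 2 / 4 - w ^ 3 / 3 := by
  rw [h.vol]
  exact vl_S h.w0.le h.X0.le h.A0.le (by linarith [h.sum, h.d1]) (by linarith [h.sum])
    (by linarith [h.w1])

/-- the volume for `X + A = S ≤ 2 w` -/
theorem vl_q {w X A S q : ℝ} (w0 : 0 ≤ w) (X0 : 0 ≤ X) (A0 : 0 ≤ A) (hs : w ≤ X + A)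
    (hS : X + A ≤ S) (hq : S = 2 * w - q) (q0 : 0 ≤ q) :
    vl w X A ≤ w * S ^ 2 / 4 - w ^ 3 / 3 + q ^ 3 / 12 := by
  have h1 : vl w X A ≤ vl w (S - A) A := vl_mono_l w0 X0 A0 hs (by linarith)
  refine h1.trans ?_
  have hX0 : 0 ≤ S - A := by linarith
  have qw : q ≤ w := by linarith
  -- one of the two numbers is at least `w`
  have key : ∀ r t : ℝ, 0 ≤ r → r ≤ w → 0 ≤ t → t ≤ r → q = r - t →
      w * (w + t) * (w - r) + r ^ 3 / 3 ≤ w * S ^ 2 / 4 + q ^ 3 / 12 := by
    intro r t r0 rw t0 tr e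
    rw [hq, e]
    have h2 : 0 ≤ (w - r) * (r + t) ^ 2 := mul_nonneg (by linarith) (sq_nonneg _)
    have h3 : 0 ≤ 3 * r ^ 2 * t + 6 * r * t ^ 2 - t ^ 3 := by
      nlinarith [mul_nonneg (mul_nonneg r0 r0) t0, mul_nonneg (mul_nonneg r0 t0) t0,
        mul_nonneg (mul_nonneg t0 t0) (sub_nonneg.2 tr)]
    nlinarith
  rw [vl]
  rcases le_total A w with hA | hA
  · rw [max_eq_left (by linarith : 0 ≤ w - A)]
    rcases le_total (S - A) w with hB | hB
    · rw [max_eq_left (by linarith : 0 ≤ w - (S - A))]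
      obtain ⟨p, hp⟩ : ∃ p, p = w - (S - A) := ⟨_, rfl⟩
      obtain ⟨r, hr⟩ : ∃ r, r = w - A := ⟨_, rfl⟩
      have e1 : S - A = w - p := by linarith
      have e2 : A = w - r := by linarith
      have e3 : q = p + r := by linarith
      have p0 : 0 ≤ p := by linarith
      have r0 : 0 ≤ r := by linarith
      rw [← hp, ← hr, e1, e2, hq, e3]
      have h2 : 0 ≤ (w - (p + r)) * (p - r) ^ 2 := mul_nonneg (by linarith) (sq_nonneg _)
      nlinarith
    · rw [max_eq_right (by linarith : w - (S - A) ≤ 0)]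
      have := key (w - A) (S - A - w) (by linarith) (by linarith) (by linarith) (by linarith)
        (by linarith)
      rw [show w + (S - A - w) = S - A by ring, show w - (w - A) = A by ring] at this
      linarith
  · rw [max_eq_right (by linarith : w - A ≤ 0), max_eq_left (by linarith : 0 ≤ w - (S - A))]
    have := key (w - (S - A)) (A - w) (by linarith) (by linarith) (by linarith) (by linarith)
      (by linarith)
    rw [show w + (A - w) = A by ring, show w - (w - (S - A)) = S - A by ring] at this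
    nlinarith

theorem Fc.v475 (h : Fc f w d X A) (hd : 19 / 40 ≤ d) :
    f ≤ w * (21 / 40 + w) ^ 2 / 4 - w ^ 3 / 3 + 1 / 5000 := by
  rw [h.vol]
  rcases le_total w (21 / 40) with hw | hw
  · have := vl_S (S := 21 / 40 + w) h.w0.le h.X0.le h.A0.le (by linarith [h.sum, h.d1])
      (by linarith [h.sum]) (by linarith)
    linarith
  · have := vl_q (S := 21 / 40 + w) (q := w - 21 / 40) h.w0.le h.X0.le h.A0.le
      (by linarith [h.sum, h.d1]) (by linarith [h.sum]) (by ring) (by linarith)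
    have h2 : (w - 21 / 40) ^ 3 ≤ (1 / 8) ^ 3 :=
      pow_le_pow_left₀ (by linarith) (by linarith [h.w1]) 3
    norm_num at h2
    linarith

theorem Fc.v4a (h : Fc f w d X A) (hd : 7 / 20 ≤ d) (hX : w ≤ X) (hX2 : 2 * X ≤ 13 / 20 + w) :
    f ≤ w * X * (13 / 20 + w - X) - w ^ 3 / 3 := by
  have h1 := h.up (B := 13 / 20 + w - X) (by linarith [h.sum])
  rw [vl, max_eq_right (by linarith : w - X ≤ 0),
    max_eq_right (by linarith : w - (13 / 20 + w - X) ≤ 0)] at h1
  linarith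

theorem Fc.v4b (h : Fc f w d X A) (hd : 7 / 20 ≤ d) (hX : X ≤ w) :
    f ≤ 13 / 20 * w * X - X ^ 3 / 3 := by
  have h1 := h.up (B := 13 / 20 + w - X) (by linarith [h.sum])
  rw [vl, max_eq_left (by linarith : 0 ≤ w - X),
    max_eq_right (by linarith [h.w1] : w - (13 / 20 + w - X) ≤ 0)] at h1
  have e : w * X * (13 / 20 + w - X) - w ^ 3 / 3 + ((w - X) ^ 3 + 0 ^ 3) / 3 =
      13 / 20 * w * X - X ^ 3 / 3 := by ring
  linarith

theorem Fc.v6 (h : Fc f w d X A) (hA : A ≤ 1 / 8) : f ≤ w / 8 := by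
  have w0 := h.w0
  have A0 := h.A0
  have h1 := h.up' (B := 1 + w - A) (by linarith [h.sum, h.d0])
  rw [vl, max_eq_right (by linarith [h.w1] : w - (1 + w - A) ≤ 0)] at h1
  have h2 : w * A ≤ w * (1 / 8) := mul_le_mul_of_nonneg_left hA w0.le
  rcases le_total A w with hw | hw
  · rw [max_eq_left (by linarith : 0 ≤ w - A)] at h1
    have e : w * (1 + w - A) * A - w ^ 3 / 3 + (0 ^ 3 + (w - A) ^ 3) / 3 = w * A - A ^ 3 / 3 := by
      ring
    have h3 : 0 ≤ A ^ 3 := pow_nonneg A0.le 3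
    linarith
  · rw [max_eq_right (by linarith : w - A ≤ 0)] at h1
    have h3 : 0 ≤ w * A * (A - w) := mul_nonneg (mul_nonneg w0.le A0.le) (by linarith)
    have h4 : 0 ≤ w ^ 3 := pow_nonneg w0.le 3
    have e : w * (1 + w - A) * A = w * A - w * A * (A - w) := by ring
    linarith

end

end Pool.Agent.Helper36.TV
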