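import Pool.Agent.Helper36.TV.A3
import Pool.Agent.Helper36.TV.A4
import Pool.Agent.Helper36.TV.A5
import Pool.Agent.Helper36.TV.Vol2

/-!
# A column with two far cells, in real variables

`x`, `y`, `z` are the heights of the class with the lowest, the highest and the middle entry; `u`,
`v`, `q` are these entries.
-/

set_option autoImplicit false

namespace Pool.Agent.Helper36.TV

open Pool.Agent.Helper36.TS Pool.Agent.Helper74.TS Pool.Agent.Helper83.TS
open Pool.Agent.Helper65.TS (sn sn_anti)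

/-- the heights -/
structure Box (x y z : ℝ) : Prop where
  x0 : 0 ≤ x
  y0 : 0 ≤ y
  z0 : 0 ≤ z
  x1 : x ≤ 3 / 5
  y1 : y ≤ 3 / 5
  z1 : z ≤ 3 / 5

/-- an entry -/
structure Ety (d u : ℝ) : Prop where
  lo : -(1 - d) ≤ u
  hi : u ≤ 1

theorem sx_le_sn {c d u w : ℝ} (hc : 0 ≤ c) (e : Ety d u) (hw : 0 ≤ w) (h : u ≤ -w) :
    sx c d u ≤ sn c d w := by
  have h1 := sn_anti (c := c) (d := d) (n := w) (m := -u) hc hw (by linarith) (by linarith [e.lo])
  rw [sx_of_nonpos (by linarith : u ≤ 0)]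
  have e1 : sn c d (-u) = c * u - (1 - d) * u ^ 2 / 2 - u ^ 3 / 3 := by
    rw [sn]
    ring
  linarith

/-- the highest class, kind B -/
theorem sx_kB {c K d u : ℝ} (hK : 0 ≤ c - K) (d0 : 0 ≤ d) (d1 : d ≤ 3 / 5) (e : Ety d u) :
    sx c d u ≤ st c d (max u 0) - K * max u 0 + K * u := by
  have h1 := sx_le_st (c := c - K) (d := d) (u := u) ⟨hK, d0, d1, e.lo, e.hi⟩
  rw [Pool.Agent.Helper74.TS.sx_sub] at h1
  have e1 : st (c - K) d (max u 0) = st c d (max u 0) - K * max u 0 := by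
    rw [st, st]
    ring
  linarith

theorem own_le {u w d x : ℝ} (h : w ≤ -u + max (x - d) 0) (d0 : 0 ≤ d) (x0 : 0 ≤ x) :
    u ≤ x - w := by
  have : max (x - d) 0 ≤ x := max_le (by linarith) x0
  linarith

theorem own_le35 {u w d x : ℝ} (h : w ≤ -u + max (x - d) 0) (hd : 7 / 20 ≤ d) (x0 : 0 ≤ x)
    (x1 : x ≤ 3 / 5) : u ≤ 5 * x / 12 - w := by
  have : max (x - d) 0 ≤ 5 * x / 12 := max_le (by linarith) (by linarith)
  linarith

theorem own_le475 {u w d x : ℝ} (h : w ≤ -u + max (x - d) 0) (hd : 19 / 40 ≤ d) (x0 : 0 ≤ x)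
    (x1 : x ≤ 3 / 5) : u ≤ 5 * x / 24 - w := by
  have : max (x - d) 0 ≤ 5 * x / 24 := max_le (by linarith) (by linarith)
  linarith

section

variable {x y z : ℝ}

theorem Box.ce (B : Box x y z) : 0 ≤ nu x - ka x y - ka x z :=
  ce_nonneg B.x0 B.x1 B.y0 B.y1 B.z0 B.z1

theorem Box.kxy (B : Box x y z) : 0 ≤ ka x y := kap_nonneg B.x0 B.x1 B.y0 B.y1

theorem Box.kyz (B : Box x y z) : 0 ≤ ka y z := kap_nonneg B.y0 B.y1 B.z0 B.z1

theorem Box.cM (B : Box x y z) : 1 / 8 + z * (1 - z) ≤ nu z - ka y z :=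
  mm B.y0 B.y1 B.z0 B.z1

theorem Box.cT (B : Box x y z) : 1 / 8 + y * (1 - y) ≤ nu y - ka x y :=
  mm B.x0 B.x1 B.y0 B.y1

theorem Box.cT' (B : Box x y z) : 1 / 8 + y * (1 - y) ≤ nu y - ka y z := by
  have := mm B.z0 B.z1 B.y0 B.y1
  rwa [ka_comm z y] at this

/-! ### A cell of the lowest class, `A ≤ 13/20`; the middle class is at `5 z / 12` -/

theorem part2 (B : Box x y z) {f w d X A u v s : ℝ} (F : Fc f w d X A) (hA : A ≤ 13 / 20)
    (own : w ≤ -u + max (x - d) 0) (kind : v ≤ 1 - X + y ∨ x - d + v - u ≤ s) (hs : 0 ≤ s)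
    (eu : Ety x u) (ev : Ety y v) :
    sx (nu y) y v + sx (nu x - ka x y - ka x z) x u + f + st (nu z - ka y z) z (5 * z / 12) ≤
      W2 x y z + ka x y / 2 * s := by
  obtain ⟨x0, y0, z0, x1, y1, z1⟩ := B
  have B : Box x y z := ⟨x0, y0, z0, x1, y1, z1⟩
  have w0 := F.w0.le
  have w1 := F.w1
  have hk := B.kxy
  have hc := B.cT
  have hyy : 0 ≤ y * (1 - y) := mul_nonneg y0 (by linarith)
  have hux := own_le own F.d0 x0
  have he := sx_le_mj (X := nu x - ka x y - ka x z) (d := x) (u := u) (D := x) (s := x - u) x0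
    (by linarith) rfl eu.hi
  have hu2 : x - u ≤ 1 := by linarith [eu.lo]
  have hks : 0 ≤ ka x y / 2 * s := mul_nonneg (by linarith) hs
  have t0 : 0 ≤ max v 0 := le_max_right _ _
  have t1 : max v 0 ≤ 1 := max_le ev.hi zero_le_one
  have hT := sx_le_st (c := nu y) (d := y) (u := v) ⟨by linarith, y0, y1, ev.lo, ev.hi⟩
  rcases kind with hA1 | hB1
  · rcases le_total w X with hw | hw
    · rcases le_total X 1 with hX | hX
      · have := c2_2a1 x0 y0 z0 x1 y1 z1 w X (x - u) (max v 0) w0 w1 hw hX (by linarith) hu2 t0 t1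
          (max_le hA1 (by linarith))
        have := F.v1 hA hw
        linarith
      · have := c2_2a1 x0 y0 z0 x1 y1 z1 w 1 (x - u) (max v 0) w0 w1 (by linarith) le_rfl
          (by linarith) hu2 t0 t1 (max_le (by linarith) (by linarith))
        have h2 : f ≤ w * w - w ^ 3 / 3 := by
          rw [F.vol, vl_comm]
          exact vl_f w0 w1 F.A0.le hX (by linarith [F.sum, F.d0])
        have h3 : w * w ≤ 13 / 20 * w * 1 := by nlinarith
        linarith
    · have := c2_2a2 x0 y0 z0 x1 y1 z1 w X (x - u) (max v 0) w0 w1 F.X0.le hw (by linarith) hu2 t0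
        t1 (max_le hA1 (by linarith))
      have := F.v2 hA hw
      linarith
  · have hT2 := sx_kB (c := nu y) (K := ka x y / 2) (by linarith) y0 y1 ev
    rcases le_total d x with hd | hd
    · rw [max_eq_left (by linarith : 0 ≤ x - d)] at own
      have h3 : ka x y / 2 * (v + w) ≤ ka x y / 2 * s :=
        mul_le_mul_of_nonneg_left (by linarith) (by linarith)
      have := c2_2b1 x0 y0 z0 x1 y1 z1 w (x - u) (max v 0) w0 w1 (by linarith) hu2 t0 t1
      have := F.vB hA
      linarith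
    · rw [max_eq_right (by linarith : x - d ≤ 0)] at own
      have he2 := sx_le_sn (c := nu x - ka x y - ka x z) B.ce eu w0 (by linarith)
      have hf := F.vd
      rcases le_total 0 (x - d + max v 0 + w) with hs1 | hs1
      · have h3 : ka x y / 2 * (x - d + v + w) ≤ ka x y / 2 * s :=
          mul_le_mul_of_nonneg_left (by linarith) (by linarith)
        have := c2_2b2 x0 y0 z0 x1 y1 z1 w d (max v 0) w0 w1 hd F.d1.le t0 t1 hs1
        linarith
      · have := c2_2b3 x0 y0 z0 x1 y1 z1 w d (max v 0) w0 w1 F.d1.le t0 (by linarith)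
        linarith

/-! ### A cell of the lowest class with `d ≥ 7/20`; the middle class is at `z` -/

theorem part4 (B : Box x y z) {f w d X A u v s : ℝ} (F : Fc f w d X A) (hd35 : 7 / 20 ≤ d)
    (own : w ≤ -u + max (x - d) 0) (kind : v ≤ 1 - X + y ∨ x - d + v - u ≤ s) (hs : 0 ≤ s)
    (eu : Ety x u) (ev : Ety y v) :
    sx (nu y) y v + sx (nu x - ka x y - ka x z) x u + f + st (nu z - ka y z) z z ≤
      W2 x y z + ka x y / 2 * s := by
  obtain ⟨x0, y0, z0, x1, y1, z1⟩ := B
  have B : Box x y z := ⟨x0, y0, z0, x1, y1, z1⟩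
  have w0 := F.w0.le
  have w1 := F.w1
  have hk := B.kxy
  have hc := B.cT
  have hyy : 0 ≤ y * (1 - y) := mul_nonneg y0 (by linarith)
  have hux := own_le35 own hd35 x0 x1
  have he := sx_le_mj (X := nu x - ka x y - ka x z) (d := x) (u := u) (D := 5 * x / 12)
    (s := 5 * x / 12 - u) (by linarith) (by linarith) rfl eu.hi
  have hu2 : 5 * x / 12 - u ≤ 1 - x + 5 * x / 12 := by linarith [eu.lo]
  have hks : 0 ≤ ka x y / 2 * s := mul_nonneg (by linarith) hs
  have t0 : 0 ≤ max v 0 := le_max_right _ _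
  have t1 : max v 0 ≤ 1 := max_le ev.hi zero_le_one
  have hT := sx_le_st (c := nu y) (d := y) (u := v) ⟨by linarith, y0, y1, ev.lo, ev.hi⟩
  rcases kind with hA1 | hB1
  · rcases le_total w X with hw | hw
    · rcases le_total (2 * X) (13 / 20 + w) with hX | hX
      · have := c2_4a1 x0 y0 z0 x1 y1 z1 w X (5 * x / 12 - u) (max v 0) w0 w1 hw hX (by linarith)
          hu2 t0 t1 (max_le hA1 (by linarith))
        have := F.v4a hd35 hw hX
        linarith
      · have := c2_4a1 x0 y0 z0 x1 y1 z1 w ((13 / 20 + w) / 2) (5 * x / 12 - u) (max v 0) w0 w1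
          (by linarith) (by linarith) (by linarith) hu2 t0 t1
          (max_le (by linarith) (by linarith))
        have h2 := F.v35 hd35
        have e : w * ((13 / 20 + w) / 2) * (13 / 20 + w - (13 / 20 + w) / 2) - w ^ 3 / 3 =
          w * (13 / 20 + w) ^ 2 / 4 - w ^ 3 / 3 := by ring
        linarith
    · have := c2_4a2 x0 y0 z0 x1 y1 z1 w X (5 * x / 12 - u) (max v 0) w0 w1 F.X0.le hw
        (by linarith) hu2 t0 t1 (max_le hA1 (by linarith))
      have := F.v4b hd35 hw
      linarith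
  · have hT2 := sx_kB (c := nu y) (K := ka x y / 2) (by linarith) y0 y1 ev
    rcases le_total d x with hd | hd
    · rw [max_eq_left (by linarith : 0 ≤ x - d)] at own
      have h3 : ka x y / 2 * (v + w) ≤ ka x y / 2 * s :=
        mul_le_mul_of_nonneg_left (by linarith) (by linarith)
      have := c2_4b1 x0 y0 z0 x1 y1 z1 w (5 * x / 12 - u) (max v 0) w0 w1 (by linarith) hu2 t0 t1
      have := F.v35 hd35
      linarith
    · rw [max_eq_right (by linarith : x - d ≤ 0)] at own
      have he2 := sx_le_sn (c := nu x - ka x y - ka x z) B.ce eu w0 (by linarith)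
      have hf := F.vd
      rcases le_total 0 (x - d + max v 0 + w) with hs1 | hs1
      · have h3 : ka x y / 2 * (x - d + v + w) ≤ ka x y / 2 * s :=
          mul_le_mul_of_nonneg_left (by linarith) (by linarith)
        have := c2_4b2 x0 y0 z0 x1 y1 z1 w d (max v 0) w0 w1 hd hd35 F.d1.le t0 t1 hs1
        linarith
      · have := c2_4b3 x0 y0 z0 x1 y1 z1 w d (max v 0) w0 w1 hd35 F.d1.le t0 (by linarith)
        linarith

/-- the slot of the middle class with a far cell -/
theorem mid_slot (B : Box x y z) {q w : ℝ} (eq : Ety z q) (w0 : 0 ≤ w) (h : q ≤ z - w) :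
    sx (nu z - ka y z) z q ≤ mj (nu z - ka y z) (1 - z) z w := by
  have hc := B.cM
  have hz : 0 ≤ z * (1 - z) := mul_nonneg B.z0 (by linarith [B.z1])
  have h1 := sx_own (c := nu z - ka y z) (d := z) (u := q) (w := w) (by linarith) eq.lo eq.hi h w0
    (by linarith [B.z1]) (by linarith)
  exact h1.trans (sx_le_mj B.z0 w0 (by ring) (by linarith [B.z1]))

theorem top_slot (B : Box x y z) {v w : ℝ} (ev : Ety y v) (w0 : 0 ≤ w) (h : v ≤ y - w) :
    sx (nu y) y v ≤ mj (nu y) (1 - y) y w := by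
  have hc := B.cT
  have hk := B.kxy
  have hz : 0 ≤ y * (1 - y) := mul_nonneg B.y0 (by linarith [B.y1])
  have h1 := sx_own (c := nu y) (d := y) (u := v) (w := w) (by linarith) ev.lo ev.hi h w0
    (by linarith [B.y1]) (by linarith)
  exact h1.trans (sx_le_mj B.y0 w0 (by ring) (by linarith [B.y1]))

/-! ### A cell of the middle class, a cell with `d ≥ 19/40` of the lowest class -/

theorem part3 (B : Box x y z) {f p dF XF AF g w d X A u v q s : ℝ} (F : Fc f p dF XF AF)
    (hdF : 19 / 40 ≤ dF) (ownF : p ≤ -u + max (x - dF) 0) (G : Fc g w d X A) (hA : A ≤ 13 / 20)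
    (own : w ≤ -q + max (z - d) 0) (kind : v ≤ 1 - X + y ∨ z - d + v - q ≤ s) (hs : 0 ≤ s)
    (eu : Ety x u) (ev : Ety y v) (eq : Ety z q) :
    sx (nu y) y v + sx (nu z - ka y z) z q + g + (sx (nu x - ka x y - ka x z) x u + f) ≤
      W2 x y z + ka y z / 2 * s := by
  obtain ⟨x0, y0, z0, x1, y1, z1⟩ := B
  have B : Box x y z := ⟨x0, y0, z0, x1, y1, z1⟩
  have w0 := G.w0.le
  have w1 := G.w1
  have p0 := F.w0.le
  have p1 := F.w1
  have hk := B.kyz
  have hc := B.cT'
  have hcM := B.cM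
  have hzz : 0 ≤ z * (1 - z) := mul_nonneg z0 (by linarith)
  have hyy : 0 ≤ y * (1 - y) := mul_nonneg y0 (by linarith)
  have hux := own_le475 ownF hdF x0 x1
  have he := sx_le_mj (X := nu x - ka x y - ka x z) (d := x) (u := u) (D := 5 * x / 24)
    (s := 5 * x / 24 - u) (by linarith) (by linarith) rfl eu.hi
  have hf := F.v475 hdF
  have hps : p ≤ 5 * x / 24 - u := by linarith
  have hu2 : 5 * x / 24 - u ≤ 1 - x + 5 * x / 24 := by linarith [eu.lo]
  have hks : 0 ≤ ka y z / 2 * s := mul_nonneg (by linarith) hs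
  have t0 : 0 ≤ max v 0 := le_max_right _ _
  have t1 : max v 0 ≤ 1 := max_le ev.hi zero_le_one
  have hT := sx_le_st (c := nu y) (d := y) (u := v) ⟨by linarith, y0, y1, ev.lo, ev.hi⟩
  have hM := mid_slot B eq w0 (own_le own G.d0 z0)
  rcases kind with hA1 | hB1
  · rcases le_total w X with hw | hw
    · rcases le_total X 1 with hX | hX
      · have := c2_3a1 x0 y0 z0 x1 y1 z1 w X (max v 0) p (5 * x / 24 - u) w0 w1 hw hX t0 t1
          (max_le hA1 (by linarith)) p0 p1 hps hu2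
        have := G.v1 hA hw
        linarith
      · have := c2_3a1 x0 y0 z0 x1 y1 z1 w 1 (max v 0) p (5 * x / 24 - u) w0 w1 (by linarith)
          le_rfl t0 t1 (max_le (by linarith) (by linarith)) p0 p1 hps hu2
        have h2 : g ≤ w * w - w ^ 3 / 3 := by
          rw [G.vol, vl_comm]
          exact vl_f w0 w1 G.A0.le hX (by linarith [G.sum, G.d0])
        have h3 : w * w ≤ 13 / 20 * w * 1 := by nlinarith
        linarith
    · have := c2_3a2 x0 y0 z0 x1 y1 z1 w X (max v 0) p (5 * x / 24 - u) w0 w1 G.X0.le hw t0 t1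
        (max_le hA1 (by linarith)) p0 p1 hps hu2
      have := G.v2 hA hw
      linarith
  · have hT2 := sx_kB (c := nu y) (K := ka y z / 2) (by linarith) y0 y1 ev
    rcases le_total d z with hd | hd
    · rw [max_eq_left (by linarith : 0 ≤ z - d)] at own
      have h3 : ka y z / 2 * (v + w) ≤ ka y z / 2 * s :=
        mul_le_mul_of_nonneg_left (by linarith) (by linarith)
      have := c2_3b1 x0 y0 z0 x1 y1 z1 w (max v 0) p (5 * x / 24 - u) w0 w1 t0 t1 p0 p1 hps hu2
      have := G.vB hA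
      linarith
    · rw [max_eq_right (by linarith : z - d ≤ 0)] at own
      have hM2 := sx_le_sn (c := nu z - ka y z) (by linarith) eq w0 (by linarith)
      have hg := G.vd
      rcases le_total 0 (z - d + max v 0 + w) with hs1 | hs1
      · have h3 : ka y z / 2 * (z - d + v + w) ≤ ka y z / 2 * s :=
          mul_le_mul_of_nonneg_left (by linarith) (by linarith)
        have := c2_3b2 x0 y0 z0 x1 y1 z1 w d (max v 0) p (5 * x / 24 - u) w0 w1 hd G.d1.le t0 t1
          hs1 p0 p1 hps hu2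
        linarith
      · have := c2_3b3 x0 y0 z0 x1 y1 z1 w d (max v 0) p (5 * x / 24 - u) w0 w1 G.d1.le t0
          (by linarith) p0 p1 hps hu2
        linarith

/-! ### Restricted cells of the two higher classes -/

theorem dom_slot {c d u w f X A D : ℝ} (hq : ∀ s, w ≤ s → s ≤ 1 - d + 5 * d / 12 →
      (13 / 20 + w) ^ 2 / 4 - w ^ 2 / 3 + (1 - d) * (5 * d / 6 - s) / 2 +
        (5 * d / 12 - s) ^ 2 / 3 ≤ c) (F : Fc f w D X A) (hD : 7 / 20 ≤ D)
    (own : w ≤ -u + max (d - D) 0) (e : Ety d u) (d0 : 0 ≤ d) (d1 : d ≤ 3 / 5) :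
    sx c d u + f ≤ st c d (5 * d / 12) := by
  have hu := own_le35 own hD d0 d1
  have w0 := F.w0.le
  have w1 := F.w1
  have h1 := sx_le_mj (X := c) (d := d) (u := u) (D := 5 * d / 12) (s := 5 * d / 12 - u)
    (by linarith) (by linarith) rfl e.hi
  have h2 := F.v35 hD
  obtain ⟨s, hs⟩ : ∃ s, s = 5 * d / 12 - u := ⟨_, rfl⟩
  have h3 := hq s (by linarith) (by linarith [e.lo])
  rw [← hs] at h1
  have hs0 : 0 ≤ s := by linarith
  have hws : w ≤ s := by linarith
  have e1 : mj c (1 - d) (5 * d / 12) s = st c d (5 * d / 12) - s * (c -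
      ((1 - d) * (5 * d / 6 - s) / 2 + (5 * d / 12 - s) ^ 2 / 3)) := by
    rw [mj, st]
    ring
  have h4 := mul_le_mul_of_nonneg_left h3 hs0
  have h5 : 0 ≤ (13 / 20 + w) ^ 2 / 4 - w ^ 2 / 3 := by nlinarith
  have h6 := mul_le_mul_of_nonneg_right hws h5
  have e2 : w * ((13 / 20 + w) ^ 2 / 4 - w ^ 2 / 3) = w * (13 / 20 + w) ^ 2 / 4 - w ^ 3 / 3 := by
    ring
  nlinarith

theorem dom_mid (B : Box x y z) {q w g X A D : ℝ} (G : Fc g w D X A) (hD : 7 / 20 ≤ D)
    (own : w ≤ -q + max (z - D) 0) (eq : Ety z q) :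
    sx (nu z - ka y z) z q + g ≤ st (nu z - ka y z) z (5 * z / 12) :=
  dom_slot (fun _ hs1 hs2 => dom B.y0 B.y1 B.z0 B.z1 G.w0.le G.w1 hs1 hs2) G hD own eq B.z0 B.z1

theorem dom_top (B : Box x y z) {v w h X A D : ℝ} (H : Fc h w D X A) (hD : 7 / 20 ≤ D)
    (own : w ≤ -v + max (y - D) 0) (ev : Ety y v) :
    sx (nu y) y v + h ≤ st (nu y) y (5 * y / 12) := by
  refine dom_slot (fun s hs1 hs2 => ?_) H hD own ev B.y0 B.y1
  have h1 := dom (y := 0) (z := y) (w := w) (s := s) le_rfl (by norm_num) B.y0 B.y1 H.w0.le H.w1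
    hs1 hs2
  have h2 := kap_nonneg (x := 0) (y := y) le_rfl (by norm_num) B.y0 B.y1
  linarith

/-- a thin cell of the middle class -/
theorem thin_mid (B : Box x y z) {q w g X A d : ℝ} (G : Fc g w d X A) (hA : A ≤ 1 / 8)
    (own : w ≤ -q + max (z - d) 0) (eq : Ety z q) :
    sx (nu z - ka y z) z q + g ≤ st (nu z - ka y z) z z := by
  have hc := B.cM
  have z0 := B.z0
  have z1 := B.z1
  have hzz : 0 ≤ z * (1 - z) := mul_nonneg z0 (by linarith)
  have hq := own_le own G.d0 z0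
  have h1 := sx_mono (c := nu z - ka y z - 1 / 8) (d := z) (u := q) (b := z) (by linarith)
    (by linarith) eq.lo eq.hi (by linarith [G.w0]) (by linarith)
  rw [Pool.Agent.Helper74.TS.sx_sub (nu z - ka y z) (1 / 8) z q,
    Pool.Agent.Helper74.TS.sx_sub (nu z - ka y z) (1 / 8) z z, sx_eq_st (c := nu z - ka y z) z0
    (by linarith : z ≤ 1)] at h1
  have := G.v6 hA
  linarith

/-! ### The highest class has a far cell -/

theorem t1a (B : Box x y z) {f w d X A h a dH XH AH g b dG XG AG u v q : ℝ} (F : Fc f w d X A)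
    (hd : 7 / 20 ≤ d) (ownF : w ≤ -u + max (x - d) 0) (H : Fc h a dH XH AH)
    (ownH : a ≤ -v + max (y - dH) 0) (G : Fc g b dG XG AG) (ownG : b ≤ -q + max (z - dG) 0)
    (eu : Ety x u) (ev : Ety y v) (eq : Ety z q) :
    (sx (nu y) y v + h) + (sx (nu z - ka y z) z q + g) +
      (sx (nu x - ka x y - ka x z) x u + f) ≤ W2 x y z := by
  have hux := own_le35 ownF hd B.x0 B.x1
  have x0 := B.x0
  have w0 := F.w0
  have he := sx_le_mj (X := nu x - ka x y - ka x z) (d := x) (u := u) (D := 5 * x / 12)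
    (s := 5 * x / 12 - u) (by linarith) (by linarith) rfl eu.hi
  have h1 := top_slot B ev H.w0.le (own_le ownH H.d0 B.y0)
  have h2 := mid_slot B eq G.w0.le (own_le ownG G.d0 B.z0)
  have := c2_t1a B.x0 B.y0 B.z0 B.x1 B.y1 B.z1 a b w (5 * x / 12 - u) H.w0.le H.w1 G.w0.le G.w1
    F.w0.le F.w1 (by linarith) (by linarith [eu.lo])
  have := F.v35 hd
  have := H.vpsi
  have := G.vpsi
  linarith

theorem t1d (B : Box x y z) {h a dH XH AH g b dG XG AG u v q : ℝ} (H : Fc h a dH XH AH)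
    (ownH : a ≤ -v + max (y - dH) 0) (G : Fc g b dG XG AG) (ownG : b ≤ -q + max (z - dG) 0)
    (huq : u ≤ q) (eu : Ety x u) (ev : Ety y v) (eq : Ety z q) :
    (sx (nu y) y v + h) + (sx (nu z - ka y z) z q + g) +
      sx (nu x - ka x y - ka x z) x u ≤ W2 x y z := by
  have hq := own_le ownG G.d0 B.z0
  have b0 := G.w0
  have he := sx_le_mj (X := nu x - ka x y - ka x z) (d := x) (u := u) (D := z)
    (s := z - u) B.z0 (by linarith) rfl eu.hi
  have h1 := top_slot B ev H.w0.le (own_le ownH H.d0 B.y0)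
  have h2 := mid_slot B eq G.w0.le hq
  have := c2_t1d B.x0 B.y0 B.z0 B.x1 B.y1 B.z1 a b (z - u) H.w0.le H.w1 G.w0.le G.w1
    (by linarith) (by linarith [eu.lo])
  have := H.vpsi
  have := G.vpsi
  linarith

theorem t1c (B : Box x y z) {f w d X A h a dH XH AH u v q : ℝ} (F : Fc f w d X A)
    (hd : 7 / 20 ≤ d) (ownF : w ≤ -u + max (x - d) 0) (H : Fc h a dH XH AH)
    (ownH : a ≤ -v + max (y - dH) 0) (hqv : q ≤ v)
    (eu : Ety x u) (ev : Ety y v) (eq : Ety z q) :
    (sx (nu y) y v + h) + sx (nu z - ka y z) z q +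
      (sx (nu x - ka x y - ka x z) x u + f) ≤ W2 x y z := by
  have hux := own_le35 ownF hd B.x0 B.x1
  have hv := own_le ownH H.d0 B.y0
  have x0 := B.x0
  have w0 := F.w0
  have a0 := H.w0
  have he := sx_le_mj (X := nu x - ka x y - ka x z) (d := x) (u := u) (D := 5 * x / 12)
    (s := 5 * x / 12 - u) (by linarith) (by linarith) rfl eu.hi
  have h2 := sx_le_mj (X := nu z - ka y z) (d := z) (u := q) (D := y)
    (s := y - q) B.y0 (by linarith) rfl eq.hi
  have h1 := top_slot B ev H.w0.le hv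
  have := c2_t1c B.x0 B.y0 B.z0 B.x1 B.y1 B.z1 a (y - q) w (5 * x / 12 - u) H.w0.le H.w1
    (by linarith) (by linarith [eq.lo]) F.w0.le F.w1 (by linarith) (by linarith [eu.lo])
  have := F.v35 hd
  have := H.vpsi
  linarith

/-- the slot of the middle class is nonnegative at the two places used below -/
theorem st_nn {c d r : ℝ} (hr : 0 ≤ r) (h : (1 - d) * r ≤ c) (hc : 0 ≤ c) : 0 ≤ st c d r := by
  rw [st]
  nlinarith [mul_nonneg hr (sub_nonneg.2 h), mul_nonneg hr hc]

/-- `m` bounds the middle class -/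
theorem s1 (B : Box x y z) {f w d X A h a dH XH AH u v m : ℝ} (F : Fc f w d X A)
    (ownF : w ≤ -u + max (x - d) 0) (H : Fc h a dH XH AH) (hdH : 7 / 20 ≤ dH)
    (ownH : a ≤ -v + max (y - dH) 0) (hm : m ≤ st (nu z - ka y z) z (5 * y / 12) ∨
      m ≤ st (nu z - ka y z) z (5 * z / 12)) (eu : Ety x u) (ev : Ety y v) :
    (sx (nu y) y v + h) + m + (sx (nu x - ka x y - ka x z) x u + f) ≤ W2 x y z := by
  have hux := own_le ownF F.d0 B.x0
  have x0 := B.x0
  have y0 := B.y0
  have z0 := B.z0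
  have z1 := B.z1
  have w0 := F.w0
  have hcM := B.cM
  have hzz : 0 ≤ z * (1 - z) := mul_nonneg z0 (by linarith)
  have n1 : 0 ≤ st (nu z - ka y z) z (5 * y / 12) :=
    st_nn (by linarith) (ms B.y0 B.y1 B.z0 B.z1) (by linarith)
  have n2 : 0 ≤ st (nu z - ka y z) z (5 * z / 12) :=
    st_nn (by linarith) (by nlinarith) (by linarith)
  have he := sx_le_mj (X := nu x - ka x y - ka x z) (d := x) (u := u) (D := x)
    (s := x - u) x0 (by linarith) rfl eu.hi
  have h1 := dom_top B H hdH ownH ev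
  have := c2_s1 B.x0 B.y0 B.z0 B.x1 B.y1 B.z1 w (x - u) F.w0.le F.w1
    (by linarith) (by linarith [eu.lo])
  have := F.vpsi
  rcases hm with hm | hm <;> linarith

/-- the middle class without a far cell, below the highest class with a restricted far cell -/
theorem mid_free (B : Box x y z) {a dH v q : ℝ} (a0 : 0 ≤ a) (hdH : 7 / 20 ≤ dH)
    (ownH : a ≤ -v + max (y - dH) 0) (hqv : q ≤ v) (eq : Ety z q) :
    sx (nu z - ka y z) z q ≤ st (nu z - ka y z) z (5 * y / 12) := by
  have hv := own_le35 ownH hdH B.y0 B.y1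
  have hcM := B.cM
  have z0 := B.z0
  have z1 := B.z1
  have y0 := B.y0
  have y1 := B.y1
  have hzz : 0 ≤ z * (1 - z) := mul_nonneg z0 (by linarith)
  have h1 := sx_mono (c := nu z - ka y z) (d := z) (u := q) (b := 5 * y / 12) (by linarith)
    (by linarith) eq.lo eq.hi (by linarith) (ms B.y0 B.y1 B.z0 B.z1)
  rwa [sx_eq_st (c := nu z - ka y z) (u := 5 * y / 12) (by linarith) (by linarith)] at h1

end

end Pool.Agent.Helper36.TV
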