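import Pool.Agent.Helper36.TV.ColOne
import Pool.Agent.Helper36.TV.Real

/-!
# A column with two or three far cells, and the case `CaseTwoFar`
-/

set_option autoImplicit false

namespace Pool.Agent.Helper36.TV

open Pool.Agent.Helper36.TS Pool.Agent.Helper84.TS
open Pool.Agent.Helper78.TS (ColI)

variable {A : Fin 4 → Fin 4 → Option (Fin 4 → ℝ)} {P : Fin 4 → Fin 4 → ℝ}

/-- a far cell `F = (i; m)`, `t` the class of the first cap, `r` the third class -/
theorem fc_of (hB : Base A P) {i m t r : Fin 4} (hn : [i, m, t, r].Nodup) {F : Fin 4 → ℝ}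
    (hF : A i m = some F) :
    Fc (fcl i F) (2 + F m) (F i - 1) (1 - (F r + (F i - 1))) (1 - (F t + (F i - 1))) ∧
      2 + F m ≤ -(-P i m) + max ((P i i - 1) - (F i - 1)) 0 := by
  obtain ⟨h1, h2, h3, -⟩ := Pool.Agent.Helper65.TS.base_far hB hn hF
  obtain ⟨f1, f2, f3, f4, f5, f6⟩ := Pool.Agent.Helper74.TS.farC_vl h1
  exact ⟨⟨h1.w0, h2, h1.d0, h1.d1, f2, f3, by linarith [h1.sum], f1⟩, h3⟩

/-- the two kinds for the class with the highest entry -/
theorem kind_of (hB : Base A P) {i m t r : Fin 4} (hn : [i, m, t, r].Nodup) {F : Fin 4 → ℝ}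
    (hF : A i m = some F) (hu : -P i m ≤ -P t m) (hv : -P t m ≤ 1) :
    -P t m ≤ 1 - (1 - (F r + (F i - 1))) + (P t t - 1) ∨
      (P i i - 1) - (F i - 1) + -P t m - -P i m ≤ slk P i t m r := by
  obtain ⟨h1, h2, -, -⟩ := Pool.Agent.Helper65.TS.base_far hB hn hF
  have h3 := h1.capx
  rw [min_eq_left (by linarith : -P t m ≤ 2 - (2 + F m)), min_eq_left hu] at h3
  rcases h3 with h | h
  · left
    linarith
  · right
    linarith

/-- two far cells of one column: `F` thin and `G` with `d ≥ 7/20`, or the other way round -/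
theorem pair_of (hB : Base A P) {i m x y : Fin 4} (hn : [i, m, x, y].Nodup) {F G : Fin 4 → ℝ}
    (hF : A i m = some F) (hG : A x m = some G) :
    (1 - (F y + (F i - 1))) + 7 / 20 ≤ G x - 1 ∨ (1 - (G y + (G x - 1))) + 7 / 20 ≤ F i - 1 := by
  have h1 := two_rst hB.of hF hG hn
  have hx := nodup_ne hn
  have n2 : m ≠ x := by clear * - hn; revert hn; revert i m x y; decide
  have w1 := hB.hw i m F hx.1 hF
  have w2 := hB.hw x m G n2 hG
  have h2 : 27 / 20 ≤ min (2 - (2 + F m)) (2 - (2 + G m)) :=
    le_min (by linarith) (by linarith)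
  rcases le_total (F y) (G y) with h | h
  · rw [max_eq_right h] at h1
    right
    linarith
  · rw [max_eq_left h] at h1
    left
    linarith

/-- **The column `m` with two far cells**, the classes in the order of their entries. -/
theorem two_ord (hB : Base A P) {m e T M : Fin 4} (hn : [m, e, T, M].Nodup)
    (h1 : -P e m ≤ -P M m) (h2 : -P M m ≤ -P T m)
    (h3 : ¬ ∀ x y F G, x ≠ m → y ≠ m → A x m = some F → A y m = some G → x = y) :
    sx (nu (P T T - 1)) (P T T - 1) (-P T m)
      + sx (nu (P M M - 1) - ka (P T T - 1) (P M M - 1)) (P M M - 1) (-P M m)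
      + sx (nu (P e e - 1) - ka (P e e - 1) (P T T - 1) - ka (P e e - 1) (P M M - 1)) (P e e - 1)
        (-P e m) + rst A id e m + rst A id T m + rst A id M m ≤
      W2 (P e e - 1) (P T T - 1) (P M M - 1)
        + ka (P e e - 1) (P T T - 1) / 2 * slk P e T m M
        + ka (P T T - 1) (P M M - 1) / 2 * slk P T M m e := by
  have hs : ∀ i, A i (id i) = some (P i) := hB.hP
  have e1 : e ≠ m := by clear * - hn; revert hn; revert m e T M; decide
  have e2 : T ≠ m := by clear * - hn; revert hn; revert m e T M; decide
  have e3 : M ≠ m := by clear * - hn; revert hn; revert m e T M; decide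
  have n1 : [e, T, m, M].Nodup := by clear * - hn; revert hn; revert m e T M; decide
  have n1' : [T, M, m, e].Nodup := by clear * - hn; revert hn; revert m e T M; decide
  have nF : [e, m, T, M].Nodup := by clear * - hn; revert hn; revert m e T M; decide
  have nG : [M, m, T, e].Nodup := by clear * - hn; revert hn; revert m e T M; decide
  have nH : [T, m, e, M].Nodup := by clear * - hn; revert hn; revert m e T M; decide
  have nFG : [e, m, M, T].Nodup := by clear * - hn; revert hn; revert m e T M; decide
  have bx : Box (P e e - 1) (P T T - 1) (P M M - 1) :=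
    ⟨(hts hB e).1, (hts hB T).1, (hts hB M).1, (hts hB e).2, (hts hB T).2, (hts hB M).2⟩
  have s1' := slk_nonneg hB.of hs n1
  have s2' := slk_nonneg hB.of hs n1'
  have k1 := bx.kxy
  have k2 := bx.kyz
  have q1 : 0 ≤ ka (P e e - 1) (P T T - 1) / 2 * slk P e T m M :=
    mul_nonneg (by linarith) s1'
  have q2 : 0 ≤ ka (P T T - 1) (P M M - 1) / 2 * slk P T M m e :=
    mul_nonneg (by linarith) s2'
  have ee : Ety (P e e - 1) (-P e m) :=
    ⟨by linarith [Pool.Agent.Helper65.TS.base_ent_ge hB e1.symm],
      Pool.Agent.Helper65.TS.base_ent_le hB e1.symm⟩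
  have eT : Ety (P T T - 1) (-P T m) :=
    ⟨by linarith [Pool.Agent.Helper65.TS.base_ent_ge hB e2.symm],
      Pool.Agent.Helper65.TS.base_ent_le hB e2.symm⟩
  have eM : Ety (P M M - 1) (-P M m) :=
    ⟨by linarith [Pool.Agent.Helper65.TS.base_ent_ge hB e3.symm],
      Pool.Agent.Helper65.TS.base_ent_le hB e3.symm⟩
  have r : ∀ {x : Fin 4}, x ≠ m → ∀ {F : Fin 4 → ℝ}, A x m = some F →
      rst A id x m = fcl x F := fun hx _ hF => rst_some hx hF
  rcases hT : A T m with _ | H
  · -- the highest class has no far cell
    rw [rst_none _ hT]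
    rcases hE : A e m with _ | F
    · exfalso
      refine h3 fun x y F G hx hy hF hG => ?_
      rcases mem4 hn x with rfl | rfl | rfl | rfl
      · exact absurd rfl hx
      · rw [hE] at hF; cases hF
      · rw [hT] at hF; cases hF
      · rcases mem4 hn y with rfl | rfl | rfl | rfl
        · exact absurd rfl hy
        · rw [hE] at hG; cases hG
        · rw [hT] at hG; cases hG
        · rfl
    rcases hM : A M m with _ | G
    · exfalso
      refine h3 fun x y F G hx hy hF hG => ?_
      rcases mem4 hn x with rfl | rfl | rfl | rfl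
      · exact absurd rfl hx
      · rcases mem4 hn y with rfl | rfl | rfl | rfl
        · exact absurd rfl hy
        · rfl
        · rw [hT] at hG; cases hG
        · rw [hM] at hG; cases hG
      · rw [hT] at hF; cases hF
      · rw [hM] at hF; cases hF
    rw [r e1 hE, r e3 hM]
    obtain ⟨cF, oF⟩ := fc_of hB nF hE
    obtain ⟨cG, oG⟩ := fc_of hB nG hM
    have kF := kind_of hB nF hE (h1.trans h2) eT.hi
    have kG := kind_of hB nG hM h2 eT.hi
    rw [slk_comm P M T m e] at kG
    rcases pair_of hB nFG hE hM with hp | hp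
    · have a1 := part2 bx cF (by linarith [cG.d1]) oF kF s1' ee eT
      have a2 := dom_mid bx cG (by linarith [cF.A0]) oG eM
      linarith
    · rcases le_total (1 - (G T + (G M - 1))) (1 / 8) with h8 | h8
      · have a1 := part4 bx cF (by linarith [cG.A0]) oF kF s1' ee eT
        have a2 := thin_mid bx cG h8 oG eM
        linarith
      · have a1 := part3 bx cF (by linarith) oF cG (by linarith [cF.d1]) oG kG s2' ee eT eM
        linarith
  · -- the highest class has a far cell
    rw [r e2 hT]
    obtain ⟨cH, oH⟩ := fc_of hB nH hT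
    rcases hE : A e m with _ | F
    · rw [rst_none _ hE]
      rcases hM : A M m with _ | G
      · exfalso
        refine h3 fun x y F G hx hy hF hG => ?_
        rcases mem4 hn x with rfl | rfl | rfl | rfl
        · exact absurd rfl hx
        · rw [hE] at hF; cases hF
        · rcases mem4 hn y with rfl | rfl | rfl | rfl
          · exact absurd rfl hy
          · rw [hE] at hG; cases hG
          · rfl
          · rw [hM] at hG; cases hG
        · rw [hM] at hF; cases hF
      rw [r e3 hM]
      obtain ⟨cG, oG⟩ := fc_of hB nG hM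
      have := t1d bx cH oH cG oG h1 ee eT eM
      linarith
    · rw [r e1 hE]
      obtain ⟨cF, oF⟩ := fc_of hB nF hE
      rcases le_total (7 / 20) (F e - 1) with hd | hd
      · rcases hM : A M m with _ | G
        · rw [rst_none _ hM]
          have := t1c bx cF hd oF cH oH h2 ee eT eM
          linarith
        · rw [r e3 hM]
          obtain ⟨cG, oG⟩ := fc_of hB nG hM
          have := t1a bx cF hd oF cH oH cG oG ee eT eM
          linarith
      · -- the highest class is restricted
        have nFH : [e, m, T, M].Nodup := nF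
        have hH : 7 / 20 ≤ H T - 1 := by
          rcases pair_of hB nFH hE hT with hp | hp
          · linarith [cF.X0]
          · obtain ⟨cH', -⟩ := fc_of hB (show [T, m, M, e].Nodup by
              clear * - hn; revert hn; revert m e T M; decide) hT
            linarith [cH'.A0]
        rcases hM : A M m with _ | G
        · rw [rst_none _ hM]
          have a2 := mid_free bx cH.w0.le hH oH h2 eM
          have := s1 bx cF oF cH hH oH (Or.inl a2) ee eT
          linarith
        · rw [r e3 hM]
          obtain ⟨cG, oG⟩ := fc_of hB nG hM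
          have hG : 7 / 20 ≤ G M - 1 := by
            rcases pair_of hB nFG hE hM with hp | hp
            · linarith [cF.A0]
            · linarith [cG.A0]
          have a2 := dom_mid bx cG hG oG eM
          have := s1 bx cF oF cH hH oH (Or.inr a2) ee eT
          linarith

/-- the column with two far cells, `e` lowest, `M` in the middle, `T` highest -/
theorem sc_ord (hB : Base A P) {m e T M : Fin 4} (hn : [m, e, T, M].Nodup)
    (h1 : -P e m ≤ -P M m) (h2 : -P M m ≤ -P T m)
    (h3 : ¬ ∀ x y F G, x ≠ m → y ≠ m → A x m = some F → A y m = some G → x = y) :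
    SC A P m e T M (W2 (P e e - 1) (P T T - 1) (P M M - 1)) := by
  have hs : ∀ i, A i (id i) = some (P i) := hB.hP
  have key := two_ord hB hn h1 h2 h3
  have n2 : [e, M, m, T].Nodup := by clear * - hn; revert hn; revert m e T M; decide
  have s3 := slk_nonneg hB.of hs n2
  have k3 := kap_nonneg (hts hB e).1 (hts hB e).2 (hts hB M).1 (hts hB M).2
  have q3 : 0 ≤ ka (P e e - 1) (P M M - 1) / 2 * slk P e M m T :=
    mul_nonneg (by linarith) s3
  rw [Pool.Agent.Helper74.TS.sx_sub, Pool.Agent.Helper74.TS.sx_sub,
    Pool.Agent.Helper74.TS.sx_sub] at key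
  unfold SC ColI
  rw [min_eq_left (h1.trans h2), min_eq_left h1, min_eq_right h2]
  linarith

/-- **A column with two or three far cells.** -/
theorem sc_two (hB : Base A P) {m a b c : Fin 4} (hn : [m, a, b, c].Nodup)
    (h3 : ¬ ∀ x y F G, x ≠ m → y ≠ m → A x m = some F → A y m = some G → x = y) :
    SC A P m a b c (W2 (P a a - 1) (P b b - 1) (P c c - 1)) := by
  have n1 : [m, a, c, b].Nodup := by clear * - hn; revert hn; revert m a b c; decide
  have n2 : [m, b, a, c].Nodup := by clear * - hn; revert hn; revert m a b c; decide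
  have n3 : [m, b, c, a].Nodup := by clear * - hn; revert hn; revert m a b c; decide
  have n4 : [m, c, a, b].Nodup := by clear * - hn; revert hn; revert m a b c; decide
  have n5 : [m, c, b, a].Nodup := by clear * - hn; revert hn; revert m a b c; decide
  rcases le_total (-P a m) (-P b m) with ab | ab <;>
    rcases le_total (-P b m) (-P c m) with bc | bc <;>
    rcases le_total (-P a m) (-P c m) with ac | ac
  · -- a b c
    have := sc_ord hB n1 ab bc h3
    rw [W2_swap] at this
    exact this.swap23
  · -- a ≤ b ≤ c ≤ a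
    have := sc_ord hB n1 ab bc h3
    rw [W2_swap] at this
    exact this.swap23
  · -- a ≤ c ≤ b
    exact sc_ord hB hn ac bc h3
  · -- c ≤ a ≤ b
    have := sc_ord hB n5 ac ab h3
    rw [W2_swap, ← W2_swap', W2_swap] at this
    exact this.swap23.swap12.swap23
  · -- b ≤ a ≤ c
    have := sc_ord hB n3 ab ac h3
    rw [W2_swap, W2_swap'] at this
    exact this.swap23.swap12
  · -- b ≤ c ≤ a
    have := sc_ord hB n2 bc ac h3
    rw [W2_swap'] at this
    exact this.swap12
  · -- c ≤ b ≤ a ≤ c
    have := sc_ord hB n4 bc ab h3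
    rw [← W2_swap', W2_swap] at this
    exact this.swap12.swap23
  · -- c ≤ b ≤ a
    have := sc_ord hB n4 bc ab h3
    rw [← W2_swap', W2_swap] at this
    exact this.swap12.swap23

/-- every column -/
theorem sc_any (hB : Base A P) {m a b c : Fin 4} (hn : [m, a, b, c].Nodup) :
    SC A P m a b c (W1 (P a a - 1) (P b b - 1) (P c c - 1)) := by
  by_cases h : ∀ x y F G, x ≠ m → y ≠ m → A x m = some F → A y m = some G → x = y
  · exact sc_one hB hn h
  · exact (sc_two hB hn h).mono (W2_le (hts hB a).1 (hts hB b).1 (hts hB c).1 (hts hB a).2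
      (hts hB b).2 (hts hB c).2)

/-- **A column with two far cells.** -/
theorem caseTwoFar : CaseTwoFar := by
  intro A P hB m x y l hn F G hF hG
  have nx : x ≠ m := (nodup_ne hn).1
  have ny : y ≠ m := (nodup_ne hn).2.1
  have hxy : x ≠ y := by clear * - hn; revert hn; revert m x y l; decide
  have h3 : ¬ ∀ x y F G, x ≠ m → y ≠ m → A x m = some F → A y m = some G → x = y :=
    fun h => hxy (h x y F G nx ny hF hG)
  have n1 : [x, m, y, l].Nodup := by clear * - hn; revert hn; revert m x y l; decide
  have n2 : [y, m, x, l].Nodup := by clear * - hn; revert hn; revert m x y l; decide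
  have n3 : [l, m, x, y].Nodup := by clear * - hn; revert hn; revert m x y l; decide
  have cm := sc_two hB hn h3
  have cx := sc_any hB n1
  have cy := sc_any hB n2
  have cl := sc_any hB n3
  obtain ⟨m0, m1⟩ := hts hB m
  obtain ⟨x0, x1⟩ := hts hB x
  obtain ⟨y0, y1⟩ := hts hB y
  obtain ⟨l0, l1⟩ := hts hB l
  refine Pool.Agent.Helper78.TS.asm4 hB.of hB.hP hn ⟨by linarith, by linarith, by linarith,
    by linarith, by linarith, by linarith, ?_⟩ cm cx cy cl
  have := total x0 x1 y0 y1 l0 l1 m0 m1
  rw [ka_comm (P x x - 1) (P m m - 1), ka_comm (P y y - 1) (P m m - 1),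
    ka_comm (P l l - 1) (P m m - 1)] at this
  have e1 : W1 (P m m - 1) (P y y - 1) (P l l - 1) = W1 (P y y - 1) (P l l - 1) (P m m - 1) := by
    unfold W1
    ring
  have e2 : W1 (P m m - 1) (P x x - 1) (P l l - 1) = W1 (P x x - 1) (P l l - 1) (P m m - 1) := by
    unfold W1
    ring
  have e3 : W1 (P m m - 1) (P x x - 1) (P y y - 1) = W1 (P x x - 1) (P y y - 1) (P m m - 1) := by
    unfold W1
    ring
  rw [e1, e2, e3]
  linarith

end Pool.Agent.Helper36.TV
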